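import Mathlib

set_option autoImplicit false

namespace Pool.Agent.Results.MP_45899d_co.Yes

/-- straight-line plane drawing of the underlying graph of the digraph `E` -/
def Planar {V : Type} (E : V → V → Prop) : Prop :=
  ∃ p : V → ℝ × ℝ, Function.Injective p ∧
    (∀ u v w, E u v → p w ∈ segment ℝ (p u) (p v) → w = u ∨ w = v) ∧
    ∀ u v x y z, E u v → E x y → s(u, v) ≠ s(x, y) → z ∈ segment ℝ (p u) (p v) →
      z ∈ segment ℝ (p x) (p y) → ∃ w, (w = u ∨ w = v) ∧ (w = x ∨ w = y) ∧ z = p w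

/-- `S` induces no directed cycle (no closed directed walk of positive length inside `S`) -/
def Acyclic {V : Type} (E : V → V → Prop) (S : Set V) : Prop :=
  ∀ v, ¬ Relation.TransGen (fun a b => a ∈ S ∧ b ∈ S ∧ E a b) v v

/-- acyclic `(k,d)`-colouring -/
def IsAcyclicColouring {V : Type} (E : V → V → Prop) (k d : ℕ) (c : V → ZMod k) : Prop :=
  ∀ i : ZMod k, Acyclic E {v | ∃ j : ℕ, j < d ∧ c v = i + (j : ZMod k)}

def arcs : List (Fin 10 × Fin 10) := [(0, 1), (0, 2), (0, 3), (1, 2), (2, 3), (3, 1), (1, 4), (4, 0), (4, 5), (5, 1), (2, 5), (2, 6), (6, 0), (6, 7), (7, 2), (3, 7), (3, 8), (8, 0), (8, 9), (9, 3), (1, 9)]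

def E (u v : Fin 10) : Prop := (u, v) ∈ arcs

instance : DecidableRel E := fun u v => inferInstanceAs (Decidable ((u, v) ∈ arcs))

def q : Fin 10 → ℤ × ℤ := ![(0, 0), (0, 30), (26, -15), (-26, -14), (3, 7), (9, 4), (5, -6), (-1, -10), (-8, -1), (-8, 6)]

def crZ (a b c : ℤ × ℤ) : ℤ := (b.1 - a.1) * (c.2 - a.2) - (b.2 - a.2) * (c.1 - a.1)

def crR (a b c : ℝ × ℝ) : ℝ := (b.1 - a.1) * (c.2 - a.2) - (b.2 - a.2) * (c.1 - a.1)

def pt (v : Fin 10) : ℝ × ℝ := (((q v).1 : ℝ), ((q v).2 : ℝ))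

theorem cast_cr (a b c : Fin 10) : crR (pt a) (pt b) (pt c) = (crZ (q a) (q b) (q c) : ℝ) := by
  simp [crR, crZ, pt]

theorem gen : ∀ u v w : Fin 10, E u v → w ≠ u → w ≠ v → crZ (q u) (q v) (q w) ≠ 0 := by
  decide +kernel

theorem sep : ∀ u v x y : Fin 10, E u v → E x y → x ≠ u → x ≠ v → y ≠ u → y ≠ v →
    0 < crZ (q u) (q v) (q x) * crZ (q u) (q v) (q y) ∨
      0 < crZ (q x) (q y) (q u) * crZ (q x) (q y) (q v) := by
  decide +kernel

theorem qinj : ∀ u v : Fin 10, q u = q v → u = v := by decide +kernel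

theorem irr : ∀ u v : Fin 10, E u v → ¬ E v u := by decide +kernel

theorem seg (c d z : ℝ × ℝ) (h : z ∈ segment ℝ c d) : ∃ s t : ℝ, 0 ≤ s ∧ 0 ≤ t ∧ s + t = 1 ∧
    z = s • c + t • d ∧ ∀ a b, crR a b z = s * crR a b c + t * crR a b d := by
  obtain ⟨s, t, hs, ht, hst, rfl⟩ := h
  refine ⟨s, t, hs, ht, hst, rfl, fun a b => ?_⟩
  obtain rfl : t = 1 - s := by linarith
  simp only [crR, Prod.fst_add, Prod.snd_add, Prod.smul_fst, Prod.smul_snd, smul_eq_mul]
  ring

theorem cr_l (a b : ℝ × ℝ) : crR a b a = 0 := by simp [crR]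
theorem cr_r (a b : ℝ × ℝ) : crR a b b = 0 := by simp only [crR]; ring

theorem seg0 (a b z : ℝ × ℝ) (h : z ∈ segment ℝ a b) : crR a b z = 0 := by
  obtain ⟨s, t, -, -, -, -, h⟩ := seg a b z h
  rw [h, cr_l, cr_r]; ring

theorem nosep (a b c d z : ℝ × ℝ) (h1 : z ∈ segment ℝ a b) (h2 : z ∈ segment ℝ c d)
    (h : 0 < crR a b c * crR a b d) : False := by
  obtain ⟨s, t, hs, ht, hst, -, e⟩ := seg c d z h2
  have e0 := (seg0 a b z h1).symm.trans (e a b)
  have hA : crR a b c ≠ 0 := fun h0 => by rw [h0, zero_mul] at h; exact lt_irrefl _ h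
  have hA2 : 0 < crR a b c * crR a b c := mul_self_pos.2 hA
  have e1 : s * (crR a b c * crR a b c) + t * (crR a b c * crR a b d) = 0 := by
    have : s * (crR a b c * crR a b c) + t * (crR a b c * crR a b d)
      = crR a b c * (s * crR a b c + t * crR a b d) := by ring
    rw [this, ← e0, mul_zero]
  have p1 := mul_nonneg hs hA2.le
  have p2 := mul_nonneg ht h.le
  have hs0 : s = 0 := by
    rcases mul_eq_zero.1 (show s * (crR a b c * crR a b c) = 0 by linarith) with h | h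
    · exact h
    · exact absurd h hA2.ne'
  have ht0 : t = 0 := by
    rcases mul_eq_zero.1 (show t * (crR a b c * crR a b d) = 0 by linarith) with h' | h'
    · exact h'
    · exact absurd h' h.ne'
  linarith

theorem planar : Planar E := by
  refine ⟨pt, fun u v h => qinj u v ?_, fun u v w huv hw => ?_, fun u v x y z huv hxy hne h1 h2 => ?_⟩
  · simp only [pt, Prod.mk.injEq, Int.cast_inj] at h
    exact Prod.ext h.1 h.2
  · by_contra hc
    push Not at hc
    have := seg0 _ _ _ hw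
    rw [cast_cr] at this
    exact gen u v w huv hc.1 hc.2 (by exact_mod_cast this)
  · have hxy' : x ≠ y := fun h => by subst h; exact irr _ _ hxy hxy
    obtain ⟨s, t, hs, ht, hst, hz, e⟩ := seg _ _ z h2
    have e0 := (seg0 _ _ z h1).symm.trans (e (pt u) (pt v))
    have g : ∀ w, w ≠ u → w ≠ v → crR (pt u) (pt v) (pt w) ≠ 0 := fun w a b => by
      rw [cast_cr]; exact_mod_cast gen u v w huv a b
    have g0 : ∀ w, (w = u ∨ w = v) → crR (pt u) (pt v) (pt w) = 0 := fun w h => by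
      rcases h with rfl | rfl
      exacts [cr_l _ _, cr_r _ _]
    by_cases hx : x = u ∨ x = v
    · by_cases hy : y = u ∨ y = v
      · exfalso
        rcases hx with rfl | rfl <;> rcases hy with rfl | rfl
        exacts [hxy' rfl, hne rfl, hne Sym2.eq_swap, hxy' rfl]
      · rw [not_or] at hy
        rw [g0 x hx, mul_zero, zero_add] at e0
        have ht0 : t = 0 := (mul_eq_zero.1 e0.symm).resolve_right (g y hy.1 hy.2)
        have hs1 : s = 1 := by linarith
        exact ⟨x, hx, Or.inl rfl, by rw [hz, ht0, hs1]; simp⟩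
    · rw [not_or] at hx
      by_cases hy : y = u ∨ y = v
      · rw [g0 y hy, mul_zero, add_zero] at e0
        have hs0 : s = 0 := (mul_eq_zero.1 e0.symm).resolve_right (g x hx.1 hx.2)
        have ht1 : t = 1 := by linarith
        exact ⟨y, hy, Or.inr rfl, by rw [hz, hs0, ht1]; simp⟩
      · rw [not_or] at hy
        exfalso
        rcases sep u v x y huv hxy hx.1 hx.2 hy.1 hy.2 with h | h
        · exact nosep _ _ _ _ z h1 h2 (by rw [cast_cr, cast_cr]; exact_mod_cast h)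
        · exact nosep _ _ _ _ z h2 h1 (by rw [cast_cr, cast_cr]; exact_mod_cast h)

def col : Fin 10 → ZMod 2 := ![0, 0, 1, 1, 1, 0, 0, 0, 0, 0]
def rk : Fin 10 → ℕ := ![1, 2, 0, 1, 0, 0, 0, 1, 0, 3]

theorem rk_lt : ∀ a b : Fin 10, E a b → col a = col b → rk a < rk b := by decide +kernel

theorem upper : IsAcyclicColouring E 2 1 col := by
  intro i v h
  have key : ∀ a b, Relation.TransGen (fun a b => a ∈ {v | ∃ j : ℕ, j < 1 ∧ col v = i + (j : ZMod 2)} ∧
      b ∈ {v | ∃ j : ℕ, j < 1 ∧ col v = i + (j : ZMod 2)} ∧ E a b) a b → rk a < rk b := by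
    have one : ∀ a b, (a ∈ {v | ∃ j : ℕ, j < 1 ∧ col v = i + (j : ZMod 2)} ∧
      b ∈ {v | ∃ j : ℕ, j < 1 ∧ col v = i + (j : ZMod 2)} ∧ E a b) → rk a < rk b := by
      rintro a b ⟨⟨j, hj, ha⟩, ⟨j', hj', hb⟩, hab⟩
      obtain rfl : j = 0 := by omega
      obtain rfl : j' = 0 := by omega
      exact rk_lt a b hab (ha.trans hb.symm)
    intro a b h
    induction h with
    | single h => exact one _ _ h
    | tail _ h ih => exact ih.trans (one _ _ h)
  exact lt_irrefl _ (key v v h)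

def P (k d m n : ℕ) : Prop := (m < n ∧ n + d ≤ k + m) ∨ (n < m ∧ n + d ≤ m)

theorem tri {k d : ℕ} [NeZero k] (hk : k < 2 * d) {c : Fin 10 → ZMod k}
    (hc : IsAcyclicColouring E k d c) {x y z : Fin 10} (h1 : E x y) (h2 : E y z) (h3 : E z x) :
    (P k d (c x).val (c y).val ∧ P k d (c y).val (c z).val ∧ P k d (c z).val (c x).val) ∨
    (P k d (c y).val (c x).val ∧ P k d (c z).val (c y).val ∧ P k d (c x).val (c z).val) := by
  have mem : ∀ (i w : Fin 10), ((c i).val ≤ (c w).val ∧ (c w).val < (c i).val + d ∨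
      (c w).val + k < (c i).val + d) → w ∈ {v | ∃ j : ℕ, j < d ∧ c v = c i + (j : ZMod k)} := by
    intro i w h
    have hi := ZMod.val_lt (c i)
    rcases h with h | h
    · refine ⟨(c w).val - (c i).val, by omega, ?_⟩
      rw [Nat.cast_sub h.1, ZMod.natCast_zmod_val, ZMod.natCast_zmod_val]; ring
    · refine ⟨(c w).val + k - (c i).val, by omega, ?_⟩
      rw [Nat.cast_sub (by omega), Nat.cast_add, ZMod.natCast_zmod_val, ZMod.natCast_zmod_val,
        ZMod.natCast_self]; ring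
  have no : ∀ i : Fin 10, ¬ (((c i).val ≤ (c x).val ∧ (c x).val < (c i).val + d ∨
      (c x).val + k < (c i).val + d) ∧ ((c i).val ≤ (c y).val ∧ (c y).val < (c i).val + d ∨
      (c y).val + k < (c i).val + d) ∧ ((c i).val ≤ (c z).val ∧ (c z).val < (c i).val + d ∨
      (c z).val + k < (c i).val + d)) := by
    rintro i ⟨a, b, e⟩
    exact hc (c i) x (((Relation.TransGen.single ⟨mem i x a, mem i y b, h1⟩).tail
      ⟨mem i y b, mem i z e, h2⟩).tail ⟨mem i z e, mem i x a, h3⟩)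
  have n1 := no x
  have n2 := no y
  have n3 := no z
  have l1 := ZMod.val_lt (c x)
  have l2 := ZMod.val_lt (c y)
  have l3 := ZMod.val_lt (c z)
  unfold P
  omega

theorem fin {k d : ℕ} (hk : k < 2 * d) {v a b c : ℕ} (hv : v < k) (ha : a < k) (hb : b < k) (hc : c < k)
    (h : (P k d a b ∧ P k d b c ∧ P k d c a ∧ P k d v a ∧ P k d v b ∧ P k d v c) ∨
      (P k d b a ∧ P k d c b ∧ P k d a c ∧ P k d a v ∧ P k d b v ∧ P k d c v)) : False := by
  unfold P at h
  omega

theorem asym {k d : ℕ} (hk : k < 2 * d) {a b : ℕ} (h : P k d a b) : ¬ P k d b a := by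
  unfold P at *
  omega

theorem lower {k d : ℕ} [NeZero k] (hk : k < 2 * d) {c : Fin 10 → ZMod k}
    (hc : IsAcyclicColouring E k d c) : False := by
  have link : ∀ v a b x y : Fin 10, E v a → E a x → E x v → E y a → E x y → E a b → E b y →
      (P k d (c a).val (c b).val → P k d (c v).val (c a).val) ∧
      (P k d (c b).val (c a).val → P k d (c a).val (c v).val) := by
    intro v a b x y e1 e2 e3 e4 e5 e6 e7
    have t1 := tri hk hc e1 e2 e3
    have t2 := tri hk hc e4 e2 e5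
    have t3 := tri hk hc e4 e6 e7
    have s1 := @asym k d hk (c a).val (c b).val
    have s2 := @asym k d hk (c a).val (c x).val
    have s3 := @asym k d hk (c a).val (c y).val
    rcases t1 with t1 | t1 <;> rcases t2 with t2 | t2 <;> rcases t3 with t3 | t3
    · exact ⟨fun _ => t1.1, fun h => absurd h (s1 t3.2.1)⟩
    · exact absurd t2.1 (s3 t3.1)
    · exact absurd t2.2.1 (s2 t1.2.1)
    · exact absurd t2.2.1 (s2 t1.2.1)
    · exact absurd t1.2.1 (s2 t2.2.1)
    · exact absurd t1.2.1 (s2 t2.2.1)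
    · exact absurd t3.1 (s3 t2.1)
    · exact ⟨fun h => absurd t3.2.1 (s1 h), fun _ => t1.1⟩
  have l1 := link 0 1 2 4 5 (by decide) (by decide) (by decide) (by decide) (by decide) (by decide)
    (by decide)
  have l2 := link 0 2 3 6 7 (by decide) (by decide) (by decide) (by decide) (by decide) (by decide)
    (by decide)
  have l3 := link 0 3 1 8 9 (by decide) (by decide) (by decide) (by decide) (by decide) (by decide)
    (by decide)
  have t := tri hk hc (x := 1) (y := 2) (z := 3) (by decide) (by decide) (by decide)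
  refine fin hk (ZMod.val_lt (c 0)) (ZMod.val_lt (c 1)) (ZMod.val_lt (c 2)) (ZMod.val_lt (c 3)) ?_
  rcases t with ⟨a, b, e⟩ | ⟨a, b, e⟩
  · exact Or.inl ⟨a, b, e, l1.1 a, l2.1 b, l3.1 e⟩
  · exact Or.inr ⟨a, b, e, l1.2 a, l2.2 b, l3.2 e⟩

theorem result : ∃ D : Fin 10 → Fin 10 → Prop, (∀ u v, D u v → ¬ D v u) ∧ Planar D ∧
    IsLeast {r : ℚ | ∃ k d : ℕ, 1 ≤ d ∧ d ≤ k ∧ r = (k : ℚ) / (d : ℚ) ∧
      ∃ c : Fin 10 → ZMod k, IsAcyclicColouring D k d c} 2 := by
  refine ⟨E, irr, planar, ⟨2, 1, le_rfl, by norm_num, by norm_num, col, upper⟩, ?_⟩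
  rintro r ⟨k, d, h1, h2, rfl, c, hc⟩
  by_contra hlt
  have hd : (0 : ℚ) < d := by exact_mod_cast h1
  rw [not_le, div_lt_iff₀ hd] at hlt
  have hk : k < 2 * d := by exact_mod_cast hlt
  have : NeZero k := ⟨by omega⟩
  exact lower hk hc

end Pool.Agent.Results.MP_45899d_co.Yes
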